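import Pool.Agent.P8H13.FG.NatP

/-!
# Arbitrary fixed shifts of the von Mangoldt function and two shifts of the Liouville function with a fixed gap

The correlation sums of the problem with at least two Liouville factors: the shifts `a i` of the von Mangoldt
function (any number `f ≥ 1`) are held fixed, two of the shifts of the Liouville function are `u` and `u + h` with a
fixed gap `h ≥ 1`, and all the other factors `λ(n + h')` are hidden in an arbitrary weight `θ` of modulus at most
one. Outside one set of scales `N` of logarithmic density zero the sums are `o(N)` for almost all positions `u ≤ N`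
of the pair (and, if `s > 0`, for almost all `s`-tuples of further shifts of the von Mangoldt function).

Used from the starting files: the two point theorem for the Liouville function with linear phases, uniformly in the
phase, at almost all scales (`Pool.Agent.Y842.PH`); the sieve bounds and the second moment for products of the
von Mangoldt function (`Pool.Agent.Y842.JC`).
-/

set_option autoImplicit false

namespace Pool.Agent.Results.MP_e6fa8b_nt.FixedGapPairs

open Finset

open Classical in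
/-- The set `E` of positive integers has logarithmic density zero: the sum of `1 / N` over the `N ∈ E`, `N ≤ X`, is
`o(log X)`. -/
def LogDensityZero (E : Set ℕ) : Prop := Filter.Tendsto
  (fun X : ℕ => (∑ N ∈ Icc 1 X, if N ∈ E then (1 : ℝ) / N else 0) / Real.log X) Filter.atTop (nhds 0)

/-- The Liouville function. -/
noncomputable def lam (n : ℕ) : ℝ := (-1) ^ ArithmeticFunction.cardFactors n

/-- The correlation sum
`∑_{n ≤ X} θ(n) ∏ i, Λ(n + a i) ∏ j, Λ(n + x j) λ(n + u) λ(n + u + h)`. -/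
noncomputable def corr {f s : ℕ} (θ : ℕ → ℂ) (a : Fin f → ℕ) (x : Fin s → ℕ) (u h X : ℕ) : ℂ :=
  ∑ n ∈ Icc 1 X, θ n * (((∏ i, ArithmeticFunction.vonMangoldt (n + a i)) *
    (∏ j, ArithmeticFunction.vonMangoldt (n + x j)) * (lam (n + u) * lam (n + u + h)) : ℝ) : ℂ)

/-- There is a set `E` of logarithmic density zero with the following property. For all `f ≥ 1`, `s`, all gaps
`h ≥ 1`, all `D` and `ε > 0`, for all `N ∉ E` with `N ≥ N₀(f, s, h, D, ε)`, for all distinct shifts
`a 1, ..., a f ≤ N` which differ by at most `D`, and all weights `θ` bounded by one, all but at most `ε N ^ (s + 1)`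
of the vectors `(x, u)` with `x 1, ..., x s, u ∈ {1, ..., N}` satisfy
`|∑_{n ≤ X} θ_x(n) ∏ i, Λ(n + a i) ∏ j, Λ(n + x j) λ(n + u) λ(n + u + h)| ≤ ε N` for all `X ≤ N`. -/
theorem result : ∃ E : Set ℕ, LogDensityZero E ∧
    ∀ f s h D : ℕ, 1 ≤ f → 1 ≤ h → ∀ ε : ℝ, 0 < ε → ∃ N₀ : ℕ, ∀ N : ℕ, N₀ ≤ N → N ∉ E →
      ∀ a : Fin f → ℕ, Function.Injective a → (∀ i, a i ≤ N) → (∀ i l, a i ≤ a l + D) →
      ∀ θ : (Fin s → ℕ) → ℕ → ℂ, (∀ x n, ‖θ x n‖ ≤ 1) →
      ({x : (Fin s → ℕ) × ℕ | (∀ j, 1 ≤ x.1 j ∧ x.1 j ≤ N) ∧ (1 ≤ x.2 ∧ x.2 ≤ N) ∧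
        ∃ X : ℕ, X ≤ N ∧ ε * N < ‖corr (θ x.1) a x.1 x.2 h X‖}.ncard : ℝ) ≤ ε * (N : ℝ) ^ (s + 1) := by
  classical
  obtain ⟨E, hE, hpair⟩ := Pool.Agent.P8H13.FG.pair_win
  refine ⟨E, hE, fun f s h D hf hh ε hε => ?_⟩
  obtain ⟨δ, hδ, N₀, hmain⟩ := Pool.Agent.P8H13.FG.mainNW f s hf D ε hε
  obtain ⟨N₁, h1⟩ := hpair h hh δ hδ
  refine ⟨N₀ + N₁, fun N hN hNE a hinj haN haD θ hθ => ?_⟩
  refine le_trans (le_of_eq ?_) (hmain N (by omega) (Pool.Agent.P8H13.FG.LL h) (Pool.Agent.P8H13.FG.LL_le h)
    (fun t => h1 N (by omega) hNE t) a hinj haN haD θ hθ)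
  rw [← Set.ncard_coe_finset]
  congr 2
  ext x
  simp only [Set.mem_ofPred_eq, coe_filter, mem_product, Fintype.mem_piFinset, mem_Icc, and_assoc]
  refine and_congr_right fun _ => and_congr_right fun _ => and_congr_right fun _ => exists_congr fun X =>
    and_congr_right fun _ => ?_
  apply iff_of_eq
  congr 2
  unfold corr
  apply sum_congr rfl
  intro n _
  unfold Pool.Agent.P8H13.FG.LL lam Pool.Agent.H376R2.MR.lam
  push_cast
  ring

end Pool.Agent.Results.MP_e6fa8b_nt.FixedGapPairs
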