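import Pool.Agent.P8H14.J1
import Pool.Agent.TH823.PS.Fin3

/-!
# The joint conjecture for almost all tuples of members of arbitrary families of small additive energy

All the shifts move (the first shift of the von Mangoldt function is `0`): they are members of arbitrary families of
integers, each of which has, for some fixed order `p`, nearly the smallest possible additive energy; for example the
values of polynomials. From the starting files: the formula of Hardy and Littlewood for such families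
(`Pool.Agent.H560R3.GB`), one shift of the Liouville function with weights (`Pool.Agent.R459`), the moments of Weyl sums
(`Pool.Agent.H373R2`).
From Mathlib: `ArithmeticFunction.vonMangoldt`; `ArithmeticFunction.cardFactors n`: the number of the prime factors of
`n` with multiplicity; `Finset.Icc 1 X`: the integers from `1` to `X`; `Fintype.piFinset fun i => Icc 1 (x i)`: the
vectors `m` of integers with `1 ≤ m i ≤ x i`; `Fin.cons 0 a`: the vector `(0, a 1, ..., a k)`; `f.eval m`: the value of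
the polynomial `f` at `m`.
-/

set_option autoImplicit false

namespace Pool.Agent.Results.MP_e6fa8b_nt.JointFamilies

open Finset Filter Polynomial

/-- The additive energy of order `p` of the family `s 1, ..., s x`: the number of the solutions of
`s (v 1) + ... + s (v p) = s (w 1) + ... + s (w p)` with all `v i`, `w i` in `{1, ..., x}`. -/
def energy (p x : ℕ) (s : ℕ → ℤ) : ℕ :=
  (((Fintype.piFinset fun _ : Fin p => Icc 1 x) ×ˢ (Fintype.piFinset fun _ : Fin p => Icc 1 x)).filter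
    (fun q => ∑ i, s (q.1 i) = ∑ i, s (q.2 i))).card

/-- The integers `s 1, ..., s x` are in `[-B N, B N]`, and for some order `p` with `1 ≤ p ≤ P` their additive energy is
at most `log ^ C N` times `x ^ (2 p) / N`. -/
def Family (B C P N x : ℕ) (s : ℕ → ℤ) : Prop :=
  (∀ m ∈ Icc 1 x, |s m| ≤ B * N) ∧
    ∃ p : ℕ, 1 ≤ p ∧ p ≤ P ∧ (energy p x s : ℝ) * N ≤ Real.log N ^ C * (x : ℝ) ^ (2 * p)

open Classical in
/-- The number of the elements of the finite set `S` with the property `E`. -/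
noncomputable def num {α : Type} (S : Finset α) (E : α → Prop) : ℝ := ((S.filter E).card : ℝ)

/-- For every prime `p` there is an integer `r` such that `p` divides none of the `r + h i`. -/
def Admissible {k : ℕ} (h : Fin k → ℕ) : Prop := ∀ p : ℕ, p.Prime → ∃ r : ℤ, ∀ i, ¬ (p : ℤ) ∣ r + h i

/-- The number `ν_p` of the distinct residues modulo `p` among the shifts `h i`. -/
def nu {k : ℕ} (h : Fin k → ℕ) (p : ℕ) : ℕ := (univ.image fun i => h i % p).card

/-- The product of the factors `β_p` of the singular series of the shifts `h i` over the primes `p ≤ z`. -/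
noncomputable def sing {k : ℕ} (h : Fin k → ℕ) (z : ℕ) : ℝ :=
  ∏ p ∈ (Icc 1 z).filter Nat.Prime, ((1 - 1 / (p : ℝ)) ^ k)⁻¹ * (1 - (nu h p : ℝ) / p)

/-- The Liouville function on the integers, `0` at the integers `m ≤ 0`, with complex values. -/
noncomputable def lam (m : ℤ) : ℂ := if 1 ≤ m then (-1) ^ ArithmeticFunction.cardFactors m.toNat else 0

/-- The singular series `S` of the shifts `h i` converges, is positive if the shifts are admissible, and
`|∑_{n ≤ N} ∏ i, Λ(n + h i) - S N| ≤ N / log ^ U N`. -/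
def HardyLittlewood (U N : ℕ) {k : ℕ} (h : Fin k → ℕ) : Prop :=
  ∃ S : ℝ, (Admissible h → 0 < S) ∧ Tendsto (sing h) atTop (nhds S) ∧
    |∑ n ∈ Icc 1 N, ∏ i, ArithmeticFunction.vonMangoldt (n + h i) - S * N| ≤ N / Real.log N ^ U

/-- For every set `K` of indices of the shifts `h i` and every nonempty set `I` of indices of the forms `α j n + c j`,
`|∑_{n ≤ X} θ(n) ∏_{i ∈ K} Λ(n + h i) ∏_{j ∈ I} λ(α j n + c j)| ≤ N / log ^ U N` for all `X` with
`α j X ≤ B N` (`j ∈ I`). -/
def LiouvilleSmall (B U N : ℕ) (θ : ℕ → ℂ) {k t : ℕ} (h : Fin k → ℕ) (α : Fin t → ℕ) (c : Fin t → ℤ) : Prop :=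
  ∀ K : Finset (Fin k), ∀ I : Finset (Fin t), I.Nonempty → ∀ X : ℕ, (∀ j ∈ I, α j * X ≤ B * N) →
    ‖∑ n ∈ Icc 1 X, θ n * (∏ i ∈ K, (ArithmeticFunction.vonMangoldt (n + h i) : ℂ)) *
      ∏ j ∈ I, lam (((α j * n : ℕ) : ℤ) + c j)‖ ≤ N / Real.log N ^ U

/-- The joint conjecture at the length `N` for the shifts `h` of the von Mangoldt function and the linear forms
`α j n + c j` of the Liouville function, with the weights `θ 0, θ 1, ...`. -/
def Joint (B U N : ℕ) {L : ℕ} (θ : Fin L → ℕ → ℂ) {k t : ℕ} (h : Fin k → ℕ) (α : Fin t → ℕ) (c : Fin t → ℤ) : Prop :=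
  HardyLittlewood U N h ∧ ∀ l, LiouvilleSmall B U N (θ l) h α c

/-- At most `log ^ κ N` weights, bounded by `log ^ κ N` on `[1, B N]`. -/
def Weights (B κ N : ℕ) {L : ℕ} (θ : Fin L → ℕ → ℂ) : Prop :=
  (L : ℝ) ≤ Real.log N ^ κ ∧ ∀ l n, 1 ≤ n → n ≤ B * N → ‖θ l n‖ ≤ Real.log N ^ κ

lemma sing_eq {k : ℕ} (a : Fin k → ℕ) :
    (fun z => Pool.Agent.H373R2.T7.singZ (fun i => (a i : ℤ)) z) = sing (Fin.cons 0 a : Fin (k + 1) → ℕ) := by
  funext z
  have h1 := Pool.Agent.R482.Sg.singZ_sg (Fin.cons 0 a : Fin (k + 1) → ℕ) z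
  simp only [Fin.cons_zero, Fin.cons_succ, Nat.cast_zero, sub_zero] at h1
  rw [h1]
  rfl

lemma adm_eq {k : ℕ} (a : Fin k → ℕ) :
    Pool.Agent.H373R2.T7.Admissible (fun i => (a i : ℤ)) ↔ Admissible (Fin.cons 0 a : Fin (k + 1) → ℕ) := by
  unfold Pool.Agent.H373R2.T7.Admissible Admissible
  apply forall_congr'
  intro p
  apply imp_congr_right
  intro _
  apply exists_congr
  intro r
  rw [Fin.forall_fin_succ]
  simp only [Fin.cons_zero, Fin.cons_succ, Nat.cast_zero, add_zero]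

lemma family_order {B C P N x : ℕ} {s : ℕ → ℤ} (h : Family B C P N x s) :
    (Pool.Agent.H373R2.T7.energy P x s : ℝ) * N ≤ Real.log N ^ C * (x : ℝ) ^ (2 * P) := by
  obtain ⟨-, p, hp1, hp, hE⟩ := h
  have h1 := Pool.Agent.TH823.PS.energy_mono hp x s
  calc (Pool.Agent.H373R2.T7.energy P x s : ℝ) * N ≤
      ((x : ℝ) ^ (2 * (P - p)) * Pool.Agent.H373R2.T7.energy p x s) * N :=
        mul_le_mul_of_nonneg_right h1 (Nat.cast_nonneg _)
    _ = (x : ℝ) ^ (2 * (P - p)) * (energy p x s * N) := by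
        rw [mul_assoc]; rfl
    _ ≤ (x : ℝ) ^ (2 * (P - p)) * (Real.log N ^ C * (x : ℝ) ^ (2 * p)) :=
        mul_le_mul_of_nonneg_left hE (by positivity)
    _ = Real.log N ^ C * (x : ℝ) ^ (2 * P) := by
        have h4 : 2 * P = 2 * (P - p) + 2 * p := by omega
        rw [h4, pow_add]
        ring

lemma num_eq {α : Type} (S : Finset α) (E : α → Prop) [DecidablePred E] : num S E = ((S.filter E).card : ℝ) := by
  unfold num
  congr!

theorem main (k κ B C U P : ℕ) (hk : 1 ≤ k) (hP : 1 ≤ P) : ∃ N₀ : ℕ, ∀ N : ℕ, N₀ ≤ N →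
    ∀ (x : Fin k → ℕ) (s : Fin k → ℕ → ℤ), (∀ i, Family B C P N (x i) (s i)) → (∀ i m, 0 ≤ s i m) →
    ∀ t : ℕ, (2 : ℝ) ^ t ≤ Real.log N ^ κ →
    ∀ (y : Fin t → ℕ) (b : Fin t → ℕ → ℤ), (∀ j, Family B C P N (y j) (b j)) →
    ∀ α : Fin t → ℕ, (∀ j, 1 ≤ α j) → ∀ (L : ℕ) (θ : Fin L → ℕ → ℂ), Weights B κ N θ →
      num ((Fintype.piFinset fun i => Icc 1 (x i)) ×ˢ (Fintype.piFinset fun j => Icc 1 (y j)))
        (fun v => ¬ Joint B U N θ (Fin.cons 0 (fun i => (s i (v.1 i)).toNat) : Fin (k + 1) → ℕ) α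
          (fun j => b j (v.2 j))) ≤
        (∏ i, (x i : ℝ)) * (∏ j, (y j : ℝ)) / Real.log N ^ U := by
  classical
  obtain ⟨c, hc, hlow⟩ := Pool.Agent.H373R2.T7.singZ_low k
  obtain ⟨N₀, h0⟩ := Pool.Agent.P8H14.J1.joint k P B C (κ + 2) U hk hP
  obtain ⟨N₁, h1⟩ := Pool.Agent.H373R2.T7.ev_L' (Real.log (B + 1 : ℝ) + 2)
  refine ⟨N₀ + N₁ + 1, fun N hN x s hs hpos t ht y b hb α hα L θ hθ => ?_⟩
  have hN0 : (0 : ℝ) < N := by exact_mod_cast (by omega : 0 < N)
  have hD := h1 N (by omega)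
  have hlB : 0 ≤ Real.log (B + 1 : ℝ) := Real.log_nonneg (by
    have : (0 : ℝ) ≤ B := Nat.cast_nonneg _
    linarith)
  have hD1 : 1 ≤ Real.log (N : ℝ) := by linarith
  have hcast : ∀ i m, ((((s i m).toNat : ℕ) : ℤ)) = s i m := fun i m => Int.toNat_of_nonneg (hpos i m)
  have hfun : ∀ i, (fun m => (((s i m).toNat : ℕ) : ℤ)) = s i := fun i => funext fun m => hcast i m
  obtain ⟨e, -⟩ : ∃ e : (Fin L × Bool) ≃ Fin (L * 2), True := by
    refine ⟨(Fintype.equivFinOfCardEq ?_), trivial⟩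
    simp
  rw [num_eq]
  refine h0 N (by omega) x (fun i m => (s i m).toNat) (fun i m hm => ?_) (fun i => ?_) t
    (ht.trans (pow_le_pow_right₀ hD1 (by omega))) y b (fun j => (hb j).1) (fun j => family_order (hb j)) α hα (L * 2) (by
      push_cast
      rw [pow_add]
      apply mul_le_mul hθ.1 _ (by norm_num) (by positivity)
      nlinarith)
    (fun r n => θ (e.symm r).1 n * (if (e.symm r).2 then (ArithmeticFunction.vonMangoldt n : ℂ) else 1)) (by
      intro r n hn1 hn2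
      rw [norm_mul, pow_add]
      apply mul_le_mul (hθ.2 _ n hn1 hn2) _ (norm_nonneg _) (by positivity)
      split_ifs
      · rw [Complex.norm_real, Real.norm_eq_abs, abs_of_nonneg ArithmeticFunction.vonMangoldt_nonneg]
        refine ArithmeticFunction.vonMangoldt_le_log.trans ?_
        have g1 : (n : ℝ) ≤ (B + 1) * N := by
          have g2 : (n : ℝ) ≤ B * N := by exact_mod_cast hn2
          linarith
        have g4 := Real.log_le_log (by exact_mod_cast (by omega : 0 < n)) g1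
        rw [Real.log_mul (by have : (0 : ℝ) ≤ B := Nat.cast_nonneg _
                             linarith) hN0.ne'] at g4
        refine g4.trans ?_
        nlinarith
      · rw [norm_one]
        exact one_le_pow₀ hD1) _ (fun v hv hHL => ?_)
  · have h3 := (hs i).1 m hm
    have h4 : (((s i m).toNat : ℕ) : ℤ) ≤ ((B * N : ℕ) : ℤ) := by
      rw [hcast]
      push_cast
      exact (le_abs_self _).trans h3
    exact_mod_cast h4
  · rw [hfun]
    exact family_order (hs i)
  · by_contra hcon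
    push Not at hcon
    apply hv
    have hlam : ∀ m : ℤ, Pool.Agent.H373R2.T7.exI Pool.Agent.H373R2.T7.liR m = lam m := fun m => rfl
    refine ⟨?_, fun l K I hI X hX => ?_⟩
    · obtain ⟨S, h3, h4⟩ := hHL
      refine ⟨S, fun had => ?_, ?_, ?_⟩
      · have h5 := (adm_eq (fun i => (s i (v.1 i)).toNat)).2 had
        exact lt_of_lt_of_le hc (ge_of_tendsto' h3 (hlow _ h5))
      · rw [← sing_eq]
        exact h3
      · refine le_trans (le_of_eq ?_) h4
        congr 2
        apply sum_congr rfl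
        intro n _
        rw [Fin.prod_univ_succ, Fin.cons_zero, add_zero]
        simp only [Fin.cons_succ]
    · have h5 := hcon (e (l, decide (0 ∈ K))) (univ.filter (fun i : Fin k => i.succ ∈ K)) I hI X hX
      refine le_trans (le_of_eq ?_) h5
      congr 1
      apply sum_congr rfl
      intro n _
      rw [Equiv.symm_apply_apply]
      have h6 : ∏ i ∈ K, (ArithmeticFunction.vonMangoldt
          (n + (Fin.cons 0 (fun i => (s i (v.1 i)).toNat) : Fin (k + 1) → ℕ) i) : ℂ) =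
          (if decide (0 ∈ K) then (ArithmeticFunction.vonMangoldt n : ℂ) else 1) *
          ∏ i ∈ univ.filter (fun i : Fin k => i.succ ∈ K),
            (ArithmeticFunction.vonMangoldt (n + (s i (v.1 i)).toNat) : ℂ) := by
        have h7 : ∏ i ∈ K, (ArithmeticFunction.vonMangoldt
          (n + (Fin.cons 0 (fun i => (s i (v.1 i)).toNat) : Fin (k + 1) → ℕ) i) : ℂ) =
          ∏ i : Fin (k + 1), if i ∈ K then (ArithmeticFunction.vonMangoldt
          (n + (Fin.cons 0 (fun i => (s i (v.1 i)).toNat) : Fin (k + 1) → ℕ) i) : ℂ) else 1 := by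
          rw [prod_ite_mem, univ_inter]
        rw [h7, Fin.prod_univ_succ, prod_filter]
        simp only [Fin.cons_zero, Fin.cons_succ, add_zero, decide_eq_true_eq]
      rw [h6]
      simp only [hlam]
      ring

theorem polynomials (𝓕 : Finset ℤ[X]) (h𝓕 : ∀ f ∈ 𝓕, 1 ≤ f.natDegree) (B C : ℕ) : ∃ B' P N₀ : ℕ, B ≤ B' ∧ 1 ≤ P ∧
    ∀ N : ℕ, N₀ ≤ N → ∀ f ∈ 𝓕, ∀ (x : ℕ) (c : ℤ), x ^ f.natDegree ≤ B * N →
      (N : ℝ) ≤ Real.log N ^ C * (x : ℝ) ^ f.natDegree → |c| ≤ B * N →
        Family B' (C + 1) P N x (fun m => c + f.eval (m : ℤ)) := by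
  classical
  induction 𝓕 using Finset.induction_on with
  | empty => exact ⟨B, 1, 0, le_rfl, le_rfl, fun N _ f hf => absurd hf (notMem_empty f)⟩
  | insert f 𝓕 _ ih =>
    obtain ⟨B1, P1, N1, hB1, hP1, h1⟩ := ih (fun g hg => h𝓕 g (mem_insert_of_mem hg))
    obtain ⟨p, B2, hB2, N2, h2⟩ := Pool.Agent.TH823.Fam.poly_family f (h𝓕 f (mem_insert_self _ _)) B C
    have hmono : ∀ (B₁ B₂ P₁ P₂ N x : ℕ) (s : ℕ → ℤ), B₁ ≤ B₂ → P₁ ≤ P₂ → Family B₁ (C + 1) P₁ N x s →
        Family B₂ (C + 1) P₂ N x s := by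
      intro B₁ B₂ P₁ P₂ N x s hB hP h
      obtain ⟨h3, q, hq1, hq2, h4⟩ := h
      refine ⟨fun m hm => (h3 m hm).trans ?_, q, hq1, hq2.trans hP, h4⟩
      exact mul_le_mul_of_nonneg_right (by exact_mod_cast hB) (by positivity)
    refine ⟨B1 + B2, P1 + p + 1, N1 + N2, by omega, by omega, fun N hN g hg x c hx1 hx2 hc => ?_⟩
    rcases mem_insert.1 hg with rfl | hg
    · obtain ⟨h3, h4⟩ := h2 N (by omega) x hx1 hx2 c hc
      refine ⟨fun m hm => (h3 m hm).trans ?_, ?_⟩
      · exact mul_le_mul_of_nonneg_right (by push_cast; omega) (by positivity)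
      · have h5 : (Pool.Agent.H373R2.T7.energy (p + 1) x (fun m => c + g.eval (m : ℤ)) : ℝ) * N ≤
            Real.log N ^ (C + 1) * (x : ℝ) ^ (2 * (p + 1)) := by
          have h6 := Pool.Agent.TH823.PS.energy_mono (Nat.le_succ p) x (fun m => c + g.eval (m : ℤ))
          have h7 : (x : ℝ) ^ (2 * (p + 1)) = (x : ℝ) ^ 2 * (x : ℝ) ^ (2 * p) := by
            rw [← pow_add]; congr 1; ring
          have h8 : 2 * (p.succ - p) = 2 := by omega
          rw [h8] at h6
          calc _ ≤ ((x : ℝ) ^ 2 * Pool.Agent.H373R2.T7.energy p x (fun m => c + g.eval (m : ℤ))) * N :=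
                mul_le_mul_of_nonneg_right h6 (Nat.cast_nonneg _)
            _ = (x : ℝ) ^ 2 * (Pool.Agent.H373R2.T7.energy p x (fun m => c + g.eval (m : ℤ)) * N) := by ring
            _ ≤ (x : ℝ) ^ 2 * (Real.log N ^ (C + 1) * (x : ℝ) ^ (2 * p)) :=
                mul_le_mul_of_nonneg_left h4 (by positivity)
            _ = _ := by rw [h7]; ring
        exact ⟨p + 1, by omega, by omega, h5⟩
    · exact hmono B1 (B1 + B2) P1 (P1 + p + 1) N x _ (by omega) (by omega) (h1 N (by omega) g hg x c hx1 hx2 hc)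

/-- (A) The joint conjecture holds for almost all choices of members of families of nearly minimal additive energy.
(B) The values of polynomials are such families. -/
theorem result :
    (∀ k κ B C U P : ℕ, 1 ≤ k → 1 ≤ P → ∃ N₀ : ℕ, ∀ N : ℕ, N₀ ≤ N →
      ∀ (x : Fin k → ℕ) (s : Fin k → ℕ → ℤ), (∀ i, Family B C P N (x i) (s i)) → (∀ i m, 0 ≤ s i m) →
      ∀ t : ℕ, (2 : ℝ) ^ t ≤ Real.log N ^ κ →
      ∀ (y : Fin t → ℕ) (b : Fin t → ℕ → ℤ), (∀ j, Family B C P N (y j) (b j)) →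
      ∀ α : Fin t → ℕ, (∀ j, 1 ≤ α j) → ∀ (L : ℕ) (θ : Fin L → ℕ → ℂ), Weights B κ N θ →
        num ((Fintype.piFinset fun i => Icc 1 (x i)) ×ˢ (Fintype.piFinset fun j => Icc 1 (y j)))
          (fun v => ¬ Joint B U N θ (Fin.cons 0 (fun i => (s i (v.1 i)).toNat) : Fin (k + 1) → ℕ) α
            (fun j => b j (v.2 j))) ≤
          (∏ i, (x i : ℝ)) * (∏ j, (y j : ℝ)) / Real.log N ^ U) ∧
    (∀ (𝓕 : Finset ℤ[X]), (∀ f ∈ 𝓕, 1 ≤ f.natDegree) → ∀ B C : ℕ, ∃ B' P N₀ : ℕ, B ≤ B' ∧ 1 ≤ P ∧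
      ∀ N : ℕ, N₀ ≤ N → ∀ f ∈ 𝓕, ∀ (x : ℕ) (c : ℤ), x ^ f.natDegree ≤ B * N →
        (N : ℝ) ≤ Real.log N ^ C * (x : ℝ) ^ f.natDegree → |c| ≤ B * N →
          Family B' (C + 1) P N x (fun m => c + f.eval (m : ℤ))) :=
  ⟨fun k κ B C U P hk hP => main k κ B C U P hk hP, fun 𝓕 h𝓕 B C => polynomials 𝓕 h𝓕 B C⟩

end Pool.Agent.Results.MP_e6fa8b_nt.JointFamilies
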