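import Pool.Agent.P8H14.PL.N4

/-!
# The formula of Hardy and Littlewood: one fixed shift, the others in families, error `N / log ^ A N` for all but a
proportion `N ^ (- c / log log N)` of the tuples, at most scales

From the starting files: the zero-free region inputs and the kernels (`Pool.Agent.W66`), the large sieve and the
primitive characters (`Pool.Agent.Helper112`), Vaughan's identity (`Pool.Agent.W93`, `Pool.Agent.H807R2`), the moments
of Weyl sums (`Pool.Agent.H373R2`), scales without exceptional characters (`Pool.Agent.TH823.PS`), Mertens' theorem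
(`Pool.Agent.Helper256`), sums of divisor functions (`Pool.Agent.H398R2`). Of this run: the primes at the fractions with
small denominators in mean square (`Pool.Agent.P8H13`), the singular series of the truncated models
(`Pool.Agent.P8H14.SS`).
From Mathlib: `ArithmeticFunction.vonMangoldt`; `Finset.Icc u v`: the integers `n` with `u ≤ n ≤ v`; `Polynomial ℤ`,
`f.eval m`: polynomials with integer coefficients and their values; `Fintype.piFinset fun i => Icc 1 (x i)`: the
vectors `m` of integers with `1 ≤ m i ≤ x i`; `Fin.cons a v`: the vector `v` with the entry `a` in front;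
`∏' p : Nat.Primes`: the infinite product over the primes.
-/

set_option autoImplicit false

namespace Pool.Agent.Results.MP_e6fa8b_nt.QuasiPowerHardyLittlewood

open Finset Polynomial

open Classical in
/-- The number of the elements of the finite set `S` with the property `E`. -/
noncomputable def num {α : Type} (S : Finset α) (E : α → Prop) : ℝ := ((S.filter E).card : ℝ)

open Classical in
/-- The property `P` holds at most scales: the set of the positive integers `N` with the property `P` has upper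
logarithmic density at least `1 - ε`. Precisely, for arbitrarily large `R` the sum of `1 / N` over the `N ≤ R`
without the property is at most `ε log R`. -/
def MostScales (ε : ℝ) (P : ℕ → Prop) : Prop :=
  ∀ R₀ : ℕ, ∃ R : ℕ, R₀ ≤ R ∧ ∑ N ∈ (Icc 1 R).filter (fun N => ¬ P N), (1 : ℝ) / N ≤ ε * Real.log R

/-- The saving `y = N ^ (c / log log N)`. -/
noncomputable def saving (c : ℝ) (N : ℕ) : ℝ := (N : ℝ) ^ (c / Real.log (Real.log N))

/-- The additive energy of order `p` of the family `s 1, ..., s x`: the number of the solutions of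
`s (v 1) + ... + s (v p) = s (w 1) + ... + s (w p)` with all `v i`, `w i` in `{1, ..., x}`. -/
def energy (p x : ℕ) (s : ℕ → ℤ) : ℕ :=
  (((Fintype.piFinset fun _ : Fin p => Icc 1 x) ×ˢ (Fintype.piFinset fun _ : Fin p => Icc 1 x)).filter
    (fun q => ∑ i, s (q.1 i) = ∑ i, s (q.2 i))).card

/-- The family `s 1, ..., s x` of integers in `[-B N, B N]` is admitted, with the saving `y = N ^ (c / log log N)`:
for some order `p ≤ P` its additive energy is at most `y` times the minimal possible size `x ^ (2 p) / N`, or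
`s m = b + f m` for one of the nonconstant polynomials `f` of the finite set `𝓕`, an integer `b` and
`x ^ deg f ≥ N / y`. -/
def Family (B P : ℕ) (𝓕 : Finset ℤ[X]) (c : ℝ) (N x : ℕ) (s : ℕ → ℤ) : Prop :=
  (∀ m ∈ Icc 1 x, |s m| ≤ B * N) ∧
    ((∃ p : ℕ, 1 ≤ p ∧ p ≤ P ∧ (energy p x s : ℝ) * N ≤ saving c N * (x : ℝ) ^ (2 * p)) ∨
      ∃ f ∈ 𝓕, 1 ≤ f.natDegree ∧ (N : ℝ) ≤ saving c N * (x : ℝ) ^ f.natDegree ∧
        ∃ b : ℤ, ∀ m ∈ Icc 1 x, s m = b + f.eval (m : ℤ))

/-- The singular series of the shifts `h i`. -/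
noncomputable def singularSeries {k : ℕ} (h : Fin k → ℕ) : ℝ :=
  ∏' p : Nat.Primes, (((1 - 1 / ((p : ℕ) : ℝ)) ^ k)⁻¹ *
    (1 - ((Finset.univ.image (fun i : Fin k => h i % (p : ℕ))).card : ℝ) / ((p : ℕ) : ℝ)))

/-- `|∑_{n ≤ X} Λ(n + h 1) ... Λ(n + h k) - 𝔖(h) X| ≤ N / log ^ A N` for all `X ≤ N`. -/
def HardyLittlewood (A N : ℕ) {k : ℕ} (h : Fin k → ℕ) : Prop := ∀ X : ℕ, X ≤ N →
  |∑ n ∈ Icc 1 X, ∏ i, ArithmeticFunction.vonMangoldt (n + h i) - singularSeries h * X| ≤ N / Real.log N ^ A

/-- One shift `h₀ ≤ B N` is arbitrary and fixed, the other `k` shifts are members of arbitrary admitted families: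
all but a proportion `1 / y` of the tuples `(h₀, s 1 (m 1), ..., s k (m k))`, `1 ≤ m i ≤ x i`, of distinct
nonnegative shifts satisfy the formula of Hardy and Littlewood. -/
def Tuples (k A B P : ℕ) (𝓕 : Finset ℤ[X]) (c : ℝ) (N : ℕ) : Prop :=
  ∀ h₀ : ℕ, h₀ ≤ B * N → ∀ (x : Fin k → ℕ) (s : Fin k → ℕ → ℤ), (∀ i, Family B P 𝓕 c N (x i) (s i)) →
    num (Fintype.piFinset fun i => Icc 1 (x i)) (fun m => (∀ i, 0 ≤ s i (m i)) ∧
      Function.Injective (Fin.cons h₀ (fun i => (s i (m i)).toNat) : Fin (k + 1) → ℕ) ∧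
      ¬ HardyLittlewood A N (Fin.cons h₀ (fun i => (s i (m i)).toNat) : Fin (k + 1) → ℕ)) ≤
      (∏ i, (x i : ℝ)) / saving c N

/-- Boxes: for all `M` with `N / y ≤ M ≤ B N`, all but `M ^ (k + 1) / y` of the `(k + 1)`-tuples of shifts in
`{1, ..., M}` are tuples of distinct shifts with the formula of Hardy and Littlewood. -/
def Boxes (k A B : ℕ) (c : ℝ) (N : ℕ) : Prop :=
  ∀ M : ℕ, M ≤ B * N → (N : ℝ) ≤ saving c N * M →
    num (Fintype.piFinset fun _ : Fin (k + 1) => Icc 1 M)
      (fun h => ¬ (Function.Injective h ∧ HardyLittlewood A N h)) ≤ (M : ℝ) ^ (k + 1) / saving c N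

/-- The truncated model `Λ_Q(m) = ∑_{r ≤ Q} μ(r) c_r(m) / φ(r)` of the primes, with Ramanujan's sums `c_r`: for
squarefree `r`, `μ(r) c_r(m) / φ(r)` is the product over the primes `p` dividing `r` of `-1` if `p` divides `m`, and of
`1 / (p - 1)` otherwise. -/
noncomputable def model (Q m : ℕ) : ℝ :=
  ∑ r ∈ (Icc 1 Q).filter Squarefree, ∏ p ∈ r.primeFactors, (if p ∣ m then (-1 : ℝ) else 1 / ((p : ℝ) - 1))

/-- `Λ - Λ_Q` on the positive integers, `0` at the integers `m ≤ 0`. -/
noncomputable def disc (Q : ℕ) (m : ℤ) : ℝ :=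
  if 1 ≤ m then ArithmeticFunction.vonMangoldt m.toNat - model Q m.toNat else 0

/-- Arbitrary weights: there is a level `Q`, `y ≤ Q ≤ N ^ (1 / 100)`, such that for every admitted family and every
system of at most `y` weights `w i` (arbitrary functions with `∑_{a n ≤ B N} |w(n)|^2 ≤ N log ^ A N`), all but `x / y`
of the members `s m` satisfy `|∑_{n ≤ X} w(n) (Λ - Λ_Q)(a n + s m)| ≤ N / log ^ A N` for all the weights and all `X`
with `a X ≤ B N`. -/
def Weights (A B P : ℕ) (𝓕 : Finset ℤ[X]) (c : ℝ) (N : ℕ) : Prop :=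
  ∃ Q : ℕ, saving c N ≤ Q ∧ (Q : ℝ) ^ 100 ≤ N ∧
    ∀ (x : ℕ) (s : ℕ → ℤ), Family B P 𝓕 c N x s → ∀ L : ℕ, (L : ℝ) ≤ saving c N →
      ∀ (a : Fin L → ℕ) (w : Fin L → ℕ → ℂ), (∀ i, 1 ≤ a i) →
        (∀ i, ∑ n ∈ Icc 1 (B * N / a i), ‖w i n‖ ^ 2 ≤ N * Real.log N ^ A) →
        num (Icc 1 x) (fun m => ∃ i, ¬ ∀ X : ℕ, a i * X ≤ B * N →
          ‖∑ n ∈ Icc 1 X, w i n * (disc Q (a i * n + s m) : ℂ)‖ ≤ N / Real.log N ^ A) ≤ x / saving c N

lemma saving_eq {c : ℝ} {N : ℕ} (hN : 1 ≤ N) : saving c N = Pool.Agent.P8H14.QP.sav c N := by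
  unfold saving Pool.Agent.P8H14.QP.sav
  have hN0 : (0 : ℝ) < N := by exact_mod_cast hN
  rw [Real.rpow_def_of_pos hN0]
  congr 1
  ring

lemma model_eq (Q m : ℕ) : model Q m = Pool.Agent.P8H13.PK.mo 1 Q 0 m := by
  unfold model Pool.Agent.P8H13.PK.mo Pool.Agent.P8H13.PK.RQ Pool.Agent.P8H13.PK.hr Pool.Agent.P8H13.PK.lf
  simp only [zero_add, one_mul, Nat.coprime_one_right_eq_true, and_true]

lemma disc_eq (Q : ℕ) (m : ℤ) : disc Q m = Pool.Agent.P8H14.PL.dz Q m := by
  unfold disc Pool.Agent.P8H14.PL.dz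
  simp only [model_eq]

/-- Let the number `k` of the moving shifts, the power `A` of the logarithm, `B ≥ 1`, the bound `P ≥ 1` for the orders
of the additive energies, a finite set `𝓕` of integer polynomials and `ε > 0` be fixed. There is a `c > 0` such that at
most scales `N`, that is on a set of `N` of upper logarithmic density at least `1 - ε`, the following holds with
`y = N ^ (c / log log N)`.

* (`Tuples`) For every fixed shift `h₀ ≤ B N` and all families `s 1, ..., s k` of integers in `[-B N, B N]`, each of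
  nearly minimal additive energy (up to the factor `y`) or with values `b + f(m)` of a polynomial of `𝓕`: for all but
  `x 1 ... x k / y` of the `m` for which `h₀, s 1 (m 1), ..., s k (m k)` are distinct natural numbers,
  `|∑_{n ≤ X} Λ(n + h₀) Λ(n + s 1 (m 1)) ... Λ(n + s k (m k)) - 𝔖 X| ≤ N / log ^ A N` for all `X ≤ N`, with the
  singular series `𝔖` of the `k + 1` shifts.
* (`Boxes`) For `N / y ≤ M ≤ B N`: all but `M ^ (k + 1) / y` of the `(k + 1)`-tuples of shifts in `{1, ..., M}` are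
  distinct and satisfy the same formula.
* (`Weights`) With the truncated model `Λ_Q` of the primes, for some level `Q` between `y` and `N ^ (1 / 100)`:
  `|∑_{n ≤ X} w(n) Λ(a n + s m) - ∑_{n ≤ X} w(n) Λ_Q(a n + s m)| ≤ N / log ^ A N` for all but `x / y` of the members of
  each such family, for all systems of up to `y` arbitrary weights `w` with `∑_{a n ≤ B N} |w(n)|^2 ≤ N log ^ A N`. -/
theorem result (k A B P : ℕ) (hB : 1 ≤ B) (hP : 1 ≤ P) (𝓕 : Finset ℤ[X]) (ε : ℝ) (hε : 0 < ε) : ∃ c : ℝ, 0 < c ∧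
    MostScales ε (fun N => Tuples k A B P 𝓕 c N ∧ Boxes k A B c N ∧ Weights A B P 𝓕 c N) := by
  classical
  obtain ⟨c, hc, hmost⟩ := Pool.Agent.P8H14.PL.main_QP k A B P hB hP 𝓕 hε
  refine ⟨c, hc, ?_⟩
  intro R₀
  obtain ⟨R, hR, h3⟩ := hmost R₀
  refine ⟨R, hR, le_trans ?_ h3⟩
  apply sum_le_sum_of_subset_of_nonneg
  · intro N hN
    simp only [mem_filter] at hN ⊢
    refine ⟨hN.1, fun hcon => hN.2 ?_⟩
    have hN1 : 1 ≤ N := (mem_Icc.1 hN.1).1
    obtain ⟨⟨Q, hQ1, hQ2, hW⟩, hT, hBx⟩ := hcon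
    refine ⟨?_, ?_, Q, ?_, hQ2, ?_⟩
    · intro h₀ hh₀ x s hF
      rw [saving_eq hN1]
      exact hT h₀ hh₀ x s (fun i => by
        have := hF i
        unfold Family at this
        rw [saving_eq hN1] at this
        exact this)
    · intro M hM hNM
      rw [saving_eq hN1] at hNM ⊢
      exact hBx M hM hNM
    · rw [saving_eq hN1]; exact hQ1
    · intro x s hF L hL a w ha hw
      rw [saving_eq hN1] at hL ⊢
      unfold Family at hF
      rw [saving_eq hN1] at hF
      simp only [disc_eq]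
      exact hW x s hF L hL a w ha hw
  · intro _ _ _
    positivity

end Pool.Agent.Results.MP_e6fa8b_nt.QuasiPowerHardyLittlewood
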