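import Pool.Agent.P8H14.QP.C1

/-!
# Correlations of the von Mangoldt and Liouville functions: one moving Liouville factor, error `N / log ^ A N` for all
but `N ^ (1 - c / log log N)` shifts, at most scales

From the starting files: the zero-free region inputs and the kernels (`Pool.Agent.W66`), the large sieve and the
primitive characters (`Pool.Agent.Helper112`), the bounds on the minor arcs by Vaughan's identity (`Pool.Agent.W93`),
the moments of Weyl sums (`Pool.Agent.H373R2`), scales without exceptional characters and the passage from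
frequencies to shifts (`Pool.Agent.TH823.PS`), Mertens' theorem.
From Mathlib: `ArithmeticFunction.vonMangoldt`; `ArithmeticFunction.cardFactors m`: the number of the prime factors of
`m` with multiplicity; `Finset.Icc u v`: the integers `n` with `u ≤ n ≤ v`; `Polynomial ℤ`, `P.eval m`: polynomials
with integer coefficients and their values.
-/

set_option autoImplicit false

namespace Pool.Agent.Results.MP_e6fa8b_nt.QuasiPowerSaving

open Finset
open Pool.Agent.P8H14.QP
open Pool.Agent.H373R2.T7 (exI liR)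

/-- Liouville's function on the integers: `λ(m) = (-1) ^ Ω(m)` for `m ≥ 1`, and `0` for `m ≤ 0`. -/
noncomputable def lam (m : ℤ) : ℝ := if 1 ≤ m then (-1) ^ ArithmeticFunction.cardFactors m.toNat else 0

open Classical in
/-- The number of the elements of the finite set `S` with the property `E`. -/
noncomputable def num {α : Type} (S : Finset α) (E : α → Prop) : ℝ := ((S.filter E).card : ℝ)

open Classical in
/-- The property `P` holds at most scales: the set of the positive integers `N` with the property `P` has upper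
logarithmic density at least `1 - ε`. Precisely, for arbitrarily large `R` the sum of `1 / N` over the `N ≤ R`
without the property is at most `ε log R`. -/
def MostScales (ε : ℝ) (P : ℕ → Prop) : Prop :=
  ∀ R₀ : ℕ, ∃ R : ℕ, R₀ ≤ R ∧ ∑ N ∈ (Icc 1 R).filter (fun N => ¬ P N), (1 : ℝ) / N ≤ ε * Real.log R

/-- The saving `y = N ^ (c / log log N)`. -/
noncomputable def saving (c : ℝ) (N : ℕ) : ℝ := (N : ℝ) ^ (c / Real.log (Real.log N))

/-- The additive energy of order `p` of the family `s 1, ..., s x`: the number of the solutions of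
`s (v 1) + ... + s (v p) = s (w 1) + ... + s (w p)` with all `v i`, `w i` in `{1, ..., x}`. -/
def energy (p x : ℕ) (s : ℕ → ℤ) : ℕ :=
  (((Fintype.piFinset fun _ : Fin p => Icc 1 x) ×ˢ (Fintype.piFinset fun _ : Fin p => Icc 1 x)).filter
    (fun q => ∑ i, s (q.1 i) = ∑ i, s (q.2 i))).card

/-- The weight `w` on the positive integers `n` with `a n ≤ B N` has mean square at most `log ^ A N` (normalised by
`N`). -/
def Weight (A B N a : ℕ) (w : ℕ → ℂ) : Prop :=
  ∑ n ∈ Icc 1 (B * N / a), ‖w n‖ ^ 2 ≤ N * Real.log N ^ A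

/-- The sums of `w n * λ (a n + b)` over `n ≤ X` are at most `N / log ^ A N` for all `X` with `a X ≤ B N`. -/
def Small (A B N a : ℕ) (w : ℕ → ℂ) (b : ℤ) : Prop :=
  ∀ X : ℕ, a * X ≤ B * N → ‖∑ n ∈ Icc 1 X, w n * (lam (a * n + b) : ℂ)‖ ≤ N / Real.log N ^ A

/-- Arbitrary families: for all families `s 1, ..., s x` of integers in `[-B N, B N]`, whose additive energy of order
`p` is at most `y` times the minimal possible size `x ^ (2 p) / N`, and all systems of at most `y` weights with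
coefficients `a l`, all but `x / y` of the members `s m` give small sums for all the weights. -/
def Families (A B p : ℕ) (c : ℝ) (N : ℕ) : Prop :=
  ∀ (x : ℕ) (s : ℕ → ℤ), (∀ m ∈ Icc 1 x, |s m| ≤ B * N) →
    (energy p x s : ℝ) * N ≤ saving c N * (x : ℝ) ^ (2 * p) →
    ∀ L : ℕ, (L : ℝ) ≤ saving c N → ∀ (a : Fin L → ℕ) (w : Fin L → ℕ → ℂ), (∀ l, 1 ≤ a l) →
      (∀ l, Weight A B N (a l) (w l)) →
      num (Icc 1 x) (fun m => ∃ l, ¬ Small A B N (a l) (w l) (s m)) ≤ x / saving c N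

/-- The values `s m = b + P m` of a polynomial `P` of degree `d`, with `N / y ≤ x ^ d ≤ B N` and `|b| ≤ B N`: for all
systems of at most `y` weights, all but `x / y` of the `m ≤ x` give small sums for all the weights. -/
def Values (A B : ℕ) (P : Polynomial ℤ) (c : ℝ) (N : ℕ) : Prop :=
  ∀ x : ℕ, x ^ P.natDegree ≤ B * N → (N : ℝ) ≤ saving c N * (x : ℝ) ^ P.natDegree → ∀ b : ℤ, |b| ≤ B * N →
    ∀ L : ℕ, (L : ℝ) ≤ saving c N → ∀ (a : Fin L → ℕ) (w : Fin L → ℕ → ℂ), (∀ l, 1 ≤ a l) →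
      (∀ l, Weight A B N (a l) (w l)) →
      num (Icc 1 x) (fun m => ∃ l, ¬ Small A B N (a l) (w l) (b + P.eval (m : ℤ))) ≤ x / saving c N

/-- The correlation sums `∑_{n ≤ X} Λ(n + h 1) ... Λ(n + h k) λ(n + h' 1) ... λ(n + h' ℓ)`. -/
noncomputable def corr {k l : ℕ} (h : Fin k → ℕ) (h' : Fin l → ℕ) (X : ℕ) : ℝ :=
  ∑ n ∈ Icc 1 X, (∏ i, ArithmeticFunction.vonMangoldt (n + h i)) * ∏ j, lam ((n : ℤ) + h' j)

/-- Tuples of shifts: for `k ≤ A`, all `ℓ ≥ 1` and all `M` with `N / y ≤ M ≤ B N`, all but `M ^ (k + ℓ) / y` of the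
tuples `(h, h')` of `k + ℓ` shifts in `{1, ..., M}` satisfy
`|∑_{n ≤ X} Λ(n + h 1) ... Λ(n + h k) λ(n + h' 1) ... λ(n + h' ℓ)| ≤ N / log ^ A N` for all `X ≤ N`. -/
def Tuples (A B : ℕ) (c : ℝ) (N : ℕ) : Prop :=
  ∀ k l : ℕ, k ≤ A → 1 ≤ l → ∀ M : ℕ, M ≤ B * N → (N : ℝ) ≤ saving c N * M →
    num ((Fintype.piFinset fun _ : Fin k => Icc 1 M) ×ˢ (Fintype.piFinset fun _ : Fin l => Icc 1 M))
      (fun q => ¬ ∀ X ≤ N, |corr q.1 q.2 X| ≤ N / Real.log N ^ A) ≤ (M : ℝ) ^ (k + l) / saving c N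

/-- One moving shift, all the others fixed: for `k ≤ A`, all `ℓ`, all fixed shifts `h 1, ..., h k ≤ B N` and
`h' 1, ..., h' ℓ`, with `x` and `b` as in `Values`: all but `x / y` of the `m ≤ x` satisfy
`|∑_{n ≤ X} Λ(n + h 1) ... Λ(n + h k) λ(n + h' 1) ... λ(n + h' ℓ) λ(n + b + P m)| ≤ N / log ^ A N` for all `X ≤ N`. -/
def OneMoving (A B : ℕ) (P : Polynomial ℤ) (c : ℝ) (N : ℕ) : Prop :=
  ∀ k l : ℕ, k ≤ A → ∀ (h : Fin k → ℕ) (h' : Fin l → ℕ), (∀ i, h i ≤ B * N) →
    ∀ x : ℕ, x ^ P.natDegree ≤ B * N → (N : ℝ) ≤ saving c N * (x : ℝ) ^ P.natDegree → ∀ b : ℤ, |b| ≤ B * N →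
      num (Icc 1 x) (fun m => ¬ ∀ X ≤ N, |∑ n ∈ Icc 1 X, (∏ i, ArithmeticFunction.vonMangoldt (n + h i)) *
        (∏ j, lam ((n : ℤ) + h' j)) * lam (n + (b + P.eval (m : ℤ)))| ≤ N / Real.log N ^ A) ≤ x / saving c N

lemma lam_eq (k : ℤ) : (lam k : ℂ) = exI liR k := by
  unfold lam exI liR
  split_ifs
  · push_cast; rfl
  · simp

lemma lam_abs (m : ℤ) : |lam m| ≤ 1 := by
  unfold lam
  split_ifs
  · rw [abs_pow]; simp
  · simp

lemma saving_eq {c : ℝ} {N : ℕ} (hN : 1 ≤ N) : saving c N = sav c N := by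
  unfold saving sav
  have hN0 : (0 : ℝ) < N := by exact_mod_cast hN
  rw [Real.rpow_def_of_pos hN0]
  congr 1
  ring

lemma small_iff (A B N a : ℕ) (w : ℕ → ℂ) (b : ℤ) : Small A B N a w b ↔ ∀ X : ℕ, a * X ≤ B * N →
    ‖∑ n ∈ Icc 1 X, w n * exI liR (a * n + b)‖ ≤ N / Real.log N ^ A := by
  unfold Small
  constructor
  · intro h X hX
    have := h X hX
    simpa only [lam_eq] using this
  · intro h X hX
    have := h X hX
    simpa only [lam_eq] using this

lemma families_of {A A' B p : ℕ} {c : ℝ} {N : ℕ} (hN : 16 ≤ N) (hA : A ≤ A') (h : FQ B p A' (sav c N) N) :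
    Families A B p c N := by
  classical
  intro x s hs hE L hL a w ha hw
  rw [saving_eq (by omega)] at hE hL ⊢
  have h1 := h x s hs hE L hL a w ha (fun l => (hw l).trans
    (mul_le_mul_of_nonneg_left (log_pow_mono hN hA) (Nat.cast_nonneg _)))
  refine le_trans ?_ h1
  unfold num
  apply Nat.cast_le.2
  apply card_le_card
  intro m hm
  simp only [mem_filter] at hm ⊢
  refine ⟨hm.1, fun hcon => ?_⟩
  obtain ⟨l, hl⟩ := hm.2
  apply hl
  rw [small_iff]
  intro X hX
  refine (hcon l X hX).trans ?_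
  have hlN : 0 < Real.log N := Real.log_pos (by exact_mod_cast (by omega : 1 < N))
  exact div_le_div_of_nonneg_left (Nat.cast_nonneg _) (by positivity) (log_pow_mono hN hA)

lemma values_of {A A' B : ℕ} {P : Polynomial ℤ} {c : ℝ} {N : ℕ} (hN : 16 ≤ N) (hA : A ≤ A')
    (h : PQ B A' P (sav c N) N) : Values A B P c N := by
  classical
  intro x hx1 hx2 b hb L hL a w ha hw
  rw [saving_eq (by omega)] at hx2 hL ⊢
  have h1 := h x hx1 hx2 b hb L hL a w ha (fun l => (hw l).trans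
    (mul_le_mul_of_nonneg_left (log_pow_mono hN hA) (Nat.cast_nonneg _)))
  refine le_trans ?_ h1
  unfold num
  apply Nat.cast_le.2
  apply card_le_card
  intro m hm
  simp only [mem_filter] at hm ⊢
  refine ⟨hm.1, fun hcon => ?_⟩
  obtain ⟨l, hl⟩ := hm.2
  apply hl
  rw [small_iff]
  intro X hX
  refine (hcon l X hX).trans ?_
  have hlN : 0 < Real.log N := Real.log_pos (by exact_mod_cast (by omega : 1 < N))
  exact div_le_div_of_nonneg_left (Nat.cast_nonneg _) (by positivity) (log_pow_mono hN hA)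

/-- the weight attached to the fixed shifts -/
noncomputable def fixW {k l : ℕ} (h : Fin k → ℕ) (h' : Fin l → ℕ) (n : ℕ) : ℝ :=
  (∏ i, ArithmeticFunction.vonMangoldt (n + h i)) * ∏ j, lam ((n : ℤ) + h' j)

lemma fixW_le {k l A B N n : ℕ} (hk : k ≤ A) (hN : 3 ≤ N) (hB : B + 1 ≤ N) (hn : n ≤ N) (h : Fin k → ℕ)
    (h' : Fin l → ℕ) (hh : ∀ i, h i ≤ B * N) : ‖((fixW h h' n : ℝ) : ℂ)‖ ≤ (2 * Real.log N) ^ A := by
  rw [Complex.norm_real, Real.norm_eq_abs]
  unfold fixW
  rw [abs_mul]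
  have h1 := prod_vM_le hk hN hB hn h hh
  have h2 : |∏ j, lam ((n : ℤ) + h' j)| ≤ 1 := by
    rw [abs_prod]
    exact prod_le_one (fun _ _ => abs_nonneg _) (fun _ _ => lam_abs _)
  calc _ ≤ |∏ i, ArithmeticFunction.vonMangoldt (n + h i)| * 1 := mul_le_mul_of_nonneg_left h2 (abs_nonneg _)
    _ ≤ _ := by rw [mul_one]; exact h1

/-- from the weights to the fixed shifts -/
lemma oneMoving_of {A B : ℕ} {P : Polynomial ℤ} {c : ℝ} {N : ℕ} (hN : 16 ≤ N) (hB : 1 ≤ B) (hBN : B + 1 ≤ N)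
    (hA : (4 : ℝ) ^ A ≤ Real.log N) (hs : 1 ≤ sav c N) (h : PQ B (2 * A + 1) P (sav c N) N) :
    OneMoving A B P c N := by
  classical
  intro k l hk h₀ h' hh x hx1 hx2 b hb
  rw [saving_eq (by omega)] at hx2 ⊢
  have h1 := h x hx1 hx2 b hb 1 (by simpa using hs) (fun _ => 1)
    (fun _ n => if n ≤ N then ((fixW h₀ h' n : ℝ) : ℂ) else 0) (fun _ => le_rfl) (fun _ =>
      weight_sq hN hB hA (fun n hn => fixW_le hk (by omega) hBN hn h₀ h' hh))
  refine le_trans ?_ h1
  unfold num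
  apply Nat.cast_le.2
  apply card_le_card
  intro m hm
  simp only [mem_filter] at hm ⊢
  refine ⟨hm.1, fun hcon => hm.2 fun X hX => ?_⟩
  have h2 := hcon 0 X (by
    rw [one_mul]
    exact hX.trans (Nat.le_mul_of_pos_left _ (by omega)))
  have h3 : ∑ n ∈ Icc 1 X, (if n ≤ N then ((fixW h₀ h' n : ℝ) : ℂ) else 0) *
      exI liR (((1 : ℕ) : ℤ) * n + (b + P.eval (m : ℤ))) =
      ((∑ n ∈ Icc 1 X, (∏ i, ArithmeticFunction.vonMangoldt (n + h₀ i)) *
        (∏ j, lam ((n : ℤ) + h' j)) * lam (n + (b + P.eval (m : ℤ))) : ℝ) : ℂ) := by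
    push_cast
    apply sum_congr rfl
    intro n hn
    rw [if_pos ((mem_Icc.1 hn).2.trans hX), one_mul, ← lam_eq]
    unfold fixW
    push_cast
    rfl
  rw [h3, Complex.norm_real, Real.norm_eq_abs] at h2
  refine h2.trans ?_
  have hlN : 0 < Real.log N := Real.log_pos (by exact_mod_cast (by omega : 1 < N))
  exact div_le_div_of_nonneg_left (Nat.cast_nonneg _) (by positivity) (log_pow_mono hN (by omega))

lemma energy_id {M N : ℕ} {y : ℝ} (h : (N : ℝ) ≤ y * M) :
    (Pool.Agent.H373R2.T7.energy 1 M (fun m : ℕ => (m : ℤ)) : ℝ) * N ≤ y * (M : ℝ) ^ (2 * 1) := by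
  have h4 : (Pool.Agent.H373R2.T7.energy 1 M (fun m : ℕ => (m : ℤ)) : ℝ) ≤ M := by
    exact_mod_cast Pool.Agent.TH823.PS.energy_one (x := M) (s := fun m : ℕ => (m : ℤ)) (fun m n hmn => by
      exact_mod_cast hmn)
  calc (Pool.Agent.H373R2.T7.energy 1 M (fun m : ℕ => (m : ℤ)) : ℝ) * N ≤ M * (y * M) := by
        apply mul_le_mul h4 h (Nat.cast_nonneg _) (Nat.cast_nonneg _)
    _ = _ := by ring

lemma tuples_of {A B : ℕ} {c : ℝ} {N : ℕ} (hN : 16 ≤ N) (hB : 1 ≤ B) (hBN : B + 1 ≤ N)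
    (hA : (4 : ℝ) ^ A ≤ Real.log N) (hs : 1 ≤ sav c N) (h : FQ B 1 (2 * A + 1) (sav c N) N) :
    Tuples A B c N := by
  classical
  intro k l hk hl M hM1 hM2
  rw [saving_eq (by omega)] at hM2 ⊢
  obtain ⟨l', rfl⟩ : ∃ l' : ℕ, l = l' + 1 := ⟨l - 1, by omega⟩
  -- split off the last shift
  set T : Finset ((Fin k → ℕ) × (Fin l' → ℕ)) :=
    (Fintype.piFinset fun _ : Fin k => Icc 1 M) ×ˢ (Fintype.piFinset fun _ : Fin l' => Icc 1 M) with hT
  have hTc : (T.card : ℝ) = (M : ℝ) ^ (k + l') := by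
    rw [hT, card_product, Fintype.card_piFinset, Fintype.card_piFinset]
    simp [pow_add]
  set bad : ((Fin k → ℕ) × (Fin l' → ℕ)) × ℕ → Prop := fun q =>
    ¬ ∀ X ≤ N, |corr q.1.1 (Fin.cons q.2 q.1.2 : Fin (l' + 1) → ℕ) X| ≤ N / Real.log N ^ A with hbad
  have h1 : num ((Fintype.piFinset fun _ : Fin k => Icc 1 M) ×ˢ (Fintype.piFinset fun _ : Fin (l' + 1) => Icc 1 M))
      (fun q => ¬ ∀ X ≤ N, |corr q.1 q.2 X| ≤ N / Real.log N ^ A) ≤
      (((T ×ˢ Icc 1 M).filter bad).card : ℝ) := by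
    unfold num
    apply Nat.cast_le.2
    refine card_le_card_of_injOn
      (fun q : (Fin k → ℕ) × (Fin (l' + 1) → ℕ) => ((q.1, Fin.tail q.2), q.2 0)) ?_ ?_
    · intro q hq
      simp only [mem_coe, mem_filter, mem_product, Fintype.mem_piFinset] at hq
      simp only [mem_coe, mem_filter, mem_product, hT, Fintype.mem_piFinset, hbad, Fin.cons_self_tail]
      exact ⟨⟨⟨hq.1.1, fun j => hq.1.2 j.succ⟩, hq.1.2 0⟩, hq.2⟩
    · intro q _ q' _ hqq
      simp only [Prod.mk.injEq] at hqq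
      obtain ⟨⟨h2, h3⟩, h4⟩ := hqq
      refine Prod.ext h2 ?_
      rw [← Fin.cons_self_tail q.2, ← Fin.cons_self_tail q'.2, h3, h4]
  refine h1.trans ?_
  have h2 : ∀ t ∈ T, ((((Icc 1 M).filter (fun m => bad (t, m))).card : ℕ) : ℝ) ≤ M / sav c N := by
    intro t ht
    rw [hT, mem_product, Fintype.mem_piFinset, Fintype.mem_piFinset] at ht
    have hh : ∀ i, t.1 i ≤ B * N := fun i => (mem_Icc.1 (ht.1 i)).2.trans hM1
    have h3 := h M (fun m => (m : ℤ)) (by
      intro m hm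
      rw [mem_Icc] at hm
      rw [Nat.abs_cast]
      exact_mod_cast hm.2.trans hM1) (energy_id hM2) 1 (by simpa using hs) (fun _ => 1)
      (fun _ n => if n ≤ N then ((fixW t.1 t.2 n : ℝ) : ℂ) else 0) (fun _ => le_rfl) (fun _ =>
        weight_sq hN hB hA (fun n hn => fixW_le hk (by omega) hBN hn t.1 t.2 hh))
    refine le_trans ?_ h3
    apply Nat.cast_le.2
    apply card_le_card
    intro m hm
    simp only [mem_filter] at hm ⊢
    refine ⟨hm.1, fun hcon => hm.2 fun X hX => ?_⟩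
    have h4 := hcon 0 X (by
      rw [one_mul]
      exact hX.trans (Nat.le_mul_of_pos_left _ (by omega)))
    have h5 : ∑ n ∈ Icc 1 X, (if n ≤ N then ((fixW t.1 t.2 n : ℝ) : ℂ) else 0) *
        exI liR (((1 : ℕ) : ℤ) * n + (m : ℤ)) =
        ((corr t.1 (Fin.cons m t.2 : Fin (l' + 1) → ℕ) X : ℝ) : ℂ) := by
      unfold corr
      push_cast
      apply sum_congr rfl
      intro n hn
      rw [if_pos ((mem_Icc.1 hn).2.trans hX), one_mul, ← lam_eq, Fin.prod_univ_succ]
      simp only [Fin.cons_zero, Fin.cons_succ]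
      unfold fixW
      push_cast
      ring
    rw [h5, Complex.norm_real, Real.norm_eq_abs] at h4
    refine h4.trans ?_
    have hlN : 0 < Real.log N := Real.log_pos (by exact_mod_cast (by omega : 1 < N))
    exact div_le_div_of_nonneg_left (Nat.cast_nonneg _) (by positivity) (log_pow_mono hN (by omega))
  refine (pair_count T (Icc 1 M) bad h2).trans (le_of_eq ?_)
  rw [hTc]
  ring

/-- Let `A` (the power of the logarithm and the largest number of factors `Λ`), `B ≥ 1`, `p ≥ 1`, a nonconstant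
integer polynomial `P` and `ε > 0` be fixed. There is a `c > 0` such that at most scales `N`, that is on a set of `N`
of upper logarithmic density at least `1 - ε`, the following holds with `y = N ^ (c / log log N)`.

* (`Families`) For all weights `w` (arbitrary functions, up to `y` of them at a time) with
  `∑_{a n ≤ B N} |w(n)|^2 ≤ N log ^ A N`, and every family `s 1, ..., s x` of integers in `[-B N, B N]` whose additive
  energy of order `p` is at most `y` times the minimal possible size `x ^ (2 p) / N`: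
  `max_X |∑_{n ≤ X} w(n) λ(a n + s m)| ≤ N / log ^ A N` for all but `x / y` of the members.
* (`Values`) The same for the values `s m = b + P m`, `N / y ≤ x ^ deg P ≤ B N`.
* (`OneMoving`) For at most `A` factors `Λ` and any number of factors `λ` with arbitrary fixed shifts:
  `|∑_{n ≤ X} Λ(n + h 1) ... Λ(n + h k) λ(n + h' 1) ... λ(n + h' ℓ) λ(n + b + P m)| ≤ N / log ^ A N`, `X ≤ N`,
  for all but `x / y` of the `m ≤ x`; for `P = T`, `b = 0`, `x = N`: for all but `N ^ (1 - c / log log N)` of the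
  shifts of the last factor.
* (`Tuples`) For all but `M ^ (k + ℓ) / y` of the tuples of shifts in `{1, ..., M}`, `N / y ≤ M ≤ B N`, `k ≤ A`,
  `ℓ ≥ 1`: `|∑_{n ≤ X} Λ(n + h 1) ... Λ(n + h k) λ(n + h' 1) ... λ(n + h' ℓ)| ≤ N / log ^ A N` for all `X ≤ N`. -/
theorem result (A B p : ℕ) (hB : 1 ≤ B) (hp : 1 ≤ p) (P : Polynomial ℤ) (hP : 1 ≤ P.natDegree) (ε : ℝ)
    (hε : 0 < ε) : ∃ c : ℝ, 0 < c ∧ MostScales ε (fun N => Families A B p c N ∧ Values A B P c N ∧
      OneMoving A B P c N ∧ Tuples A B c N) := by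
  classical
  obtain ⟨p', B', C1, hp', hB', hBB, hC1, hpoly⟩ := polyQ B (2 * A + 1) P hP
  obtain ⟨c, hc, hmost⟩ := most_FQs (ι := Fin 3) ![B, B', B] ![p, p', 1] (2 * A + 1)
    (by intro i; fin_cases i <;> simp [hB, hB']) (by intro i; fin_cases i <;> simp [hp, hp']) hε
  obtain ⟨N1, hN1, h1⟩ := sav_large (c := c / 2) (by positivity) C1
  obtain ⟨N2, h2⟩ := log_ev ((4 : ℝ) ^ A)
  refine ⟨c / 2, by positivity, ?_⟩
  have hm := hmost (N1 + N2 + B + 16)
  intro R₀
  obtain ⟨R, hR, h3⟩ := hm R₀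
  refine ⟨R, hR, le_trans ?_ h3⟩
  apply sum_le_sum_of_subset_of_nonneg
  · intro N hN
    simp only [mem_filter] at hN ⊢
    refine ⟨hN.1, fun hcon => hN.2 ?_⟩
    obtain ⟨hNN, hF⟩ := hcon
    have hN16 : 16 ≤ N := by omega
    have hF0 : FQ B p (2 * A + 1) (sav c N) N := hF 0
    have hF1 : FQ B' p' (2 * A + 1) (sav c N) N := hF 1
    have hF2 : FQ B 1 (2 * A + 1) (sav c N) N := hF 2
    have hs1 : C1 ≤ sav (c / 2) N := h1 N (by omega)
    have hs : 1 ≤ sav (c / 2) N := hC1.trans hs1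
    have hA4 : (4 : ℝ) ^ A ≤ Real.log N := h2 N (by omega)
    have hss : sav (c / 2) N * sav (c / 2) N = sav c N := by
      unfold sav
      rw [← Real.exp_add]
      congr 1
      ring
    have hle : sav (c / 2) N ≤ sav c N := sav_mono (by linarith) hN16
    have hPQ : PQ B (2 * A + 1) P (sav (c / 2) N) N := by
      apply hpoly N (by omega) _ hs
      refine FQ_mono (by positivity) ?_ hF1
      rw [← hss]
      exact mul_le_mul_of_nonneg_right hs1 (sav_pos _ _).le
    refine ⟨families_of hN16 (by omega) (FQ_mono (sav_pos _ _) hle hF0), values_of hN16 (by omega) hPQ,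
      oneMoving_of hN16 hB (by omega) hA4 hs hPQ, tuples_of hN16 hB (by omega) hA4 hs
        (FQ_mono (sav_pos _ _) hle hF2)⟩
  · intro _ _ _
    positivity

end Pool.Agent.Results.MP_e6fa8b_nt.QuasiPowerSaving
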